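import Pool.Agent.Lib.MP_12e153_co.Mg.G007

/-!
The final averaging argument: there is no symmetric colouring of the complete graph on `p + 1`
vertices by `ZMod p` without a zero-sum spanning tree of depth at most two.
-/

set_option autoImplicit false
set_option linter.unusedSectionVars false

namespace Pool.Agent.Lib.MP_12e153_co

open Finset

theorem sum_image_card {α β : Type*} [DecidableEq α] [DecidableEq β] (A : Finset α) (f : α → β) :
    ∑ Q ∈ A.powerset, ((Q.image f).card : ℚ) =
      ∑ j ∈ A.image f, ((2 : ℚ) ^ A.card - 2 ^ (A.filter fun a => f a ≠ j).card) := by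
  have h1 : ∀ Q ∈ A.powerset, ((Q.image f).card : ℚ) =
      ∑ j ∈ A.image f, if j ∈ Q.image f then (1 : ℚ) else 0 := by
    intro Q hQ
    rw [← sum_filter, sum_const, nsmul_eq_mul, mul_one]
    congr 2
    ext j
    simp only [mem_filter]
    exact ⟨fun h => ⟨image_subset_image (mem_powerset.1 hQ) h, h⟩, fun h => h.2⟩
  rw [sum_congr rfl h1, sum_comm]
  apply sum_congr rfl
  intro j _
  rw [← sum_filter, sum_const, nsmul_eq_mul, mul_one]
  have h2 : (A.powerset.filter fun Q => j ∈ Q.image f).card +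
      (A.powerset.filter fun Q => j ∉ Q.image f).card = A.powerset.card :=
    card_filter_add_card_filter_not _
  have h3 : (A.powerset.filter fun Q => j ∉ Q.image f) = (A.filter fun a => f a ≠ j).powerset := by
    ext Q
    simp only [mem_filter, mem_powerset, mem_image, not_exists, not_and, subset_iff]
    constructor
    · rintro ⟨h4, h5⟩ a ha
      exact ⟨h4 ha, h5 a ha⟩
    · intro h4
      exact ⟨fun a ha => (h4 ha).1, fun a ha => (h4 ha).2⟩
  rw [h3, card_powerset, card_powerset] at h2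
  have h4 : (((A.powerset.filter fun Q => j ∈ Q.image f).card : ℚ)) +
      2 ^ (A.filter fun a => f a ≠ j).card = 2 ^ A.card := by exact_mod_cast h2
  linarith

theorem half_pow_le {d : ℕ} (hd : 1 ≤ d) : ((1 : ℚ) / 2) ^ d ≤ 1 / 2 := by
  calc ((1 : ℚ) / 2) ^ d ≤ (1 / 2) ^ 1 := pow_le_pow_of_le_one (by norm_num) (by norm_num) hd
    _ = 1 / 2 := by norm_num

theorem half_pow_le' {d : ℕ} (hd : 2 ≤ d) : ((1 : ℚ) / 2) ^ d ≤ 1 / 4 := by
  calc ((1 : ℚ) / 2) ^ d ≤ (1 / 2) ^ 2 := pow_le_pow_of_le_one (by norm_num) (by norm_num) hd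
    _ = 1 / 4 := by norm_num

theorem weight_bound {β : Type*} [DecidableEq β] (T : Finset β) (d : β → ℕ) (p : ℕ)
    (hd : ∀ j ∈ T, 1 ≤ d j) (hsum : ∑ j ∈ T, d j = p) (h4 : 4 ≤ T.card)
    (h4' : T.card = 4 → ∀ j ∈ T, ∀ k ∈ T, d j = 1 → d k = 1 → j = k) :
    3 - 6 / ((p : ℚ) + 1) < ∑ j ∈ T, (1 - ((1 : ℚ) / 2) ^ d j) := by
  have hp1 : (0 : ℚ) < (p : ℚ) + 1 := by positivity
  by_cases h6 : 6 ≤ T.card
  · have h1 : (3 : ℚ) ≤ ∑ j ∈ T, (1 - ((1 : ℚ) / 2) ^ d j) := by
      calc (3 : ℚ) ≤ ∑ j ∈ T, (1 / 2 : ℚ) := by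
            rw [sum_const, nsmul_eq_mul]
            have : (6 : ℚ) ≤ T.card := by exact_mod_cast h6
            linarith
        _ ≤ _ := by
            apply sum_le_sum
            intro j hj
            have := half_pow_le (hd j hj)
            linarith
    have h2 : 0 < 6 / ((p : ℚ) + 1) := by positivity
    linarith
  · obtain ⟨J, hJ, hmax⟩ := exists_max_image T d (card_pos.1 (by omega))
    have hpJ : p ≤ 5 * d J := by
      calc p = ∑ j ∈ T, d j := hsum.symm
        _ ≤ ∑ j ∈ T, d J := sum_le_sum hmax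
        _ = T.card * d J := by rw [sum_const, smul_eq_mul]
        _ ≤ 5 * d J := Nat.mul_le_mul_right _ (by omega)
    have hJlt : ((1 : ℚ) / 2) ^ d J < 6 / ((p : ℚ) + 1) := by
      rw [lt_div_iff₀ hp1, one_div, inv_pow, inv_mul_lt_iff₀ (by positivity)]
      have h1 : p + 1 < 2 ^ d J * 6 := by
        have := (Nat.lt_two_pow_self (n := d J))
        omega
      exact_mod_cast h1
    rw [← add_sum_erase T _ hJ]
    have hrest : (2 : ℚ) ≤ ∑ j ∈ T.erase J, (1 - ((1 : ℚ) / 2) ^ d j) := by
      have hc : (T.erase J).card = T.card - 1 := card_erase_of_mem hJ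
      by_cases h5 : T.card = 5
      · calc (2 : ℚ) = ∑ j ∈ T.erase J, (1 / 2 : ℚ) := by
              rw [sum_const, nsmul_eq_mul, hc, h5]; norm_num
          _ ≤ _ := by
              apply sum_le_sum
              intro j hj
              have := half_pow_le (hd j (mem_erase.1 hj).2)
              linarith
      · have h4e : T.card = 4 := by omega
        have h1 : ((T.erase J).filter fun j => d j = 1).card ≤ 1 := by
          rw [card_le_one]
          intro j hj k hk
          rw [mem_filter, mem_erase] at hj hk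
          exact h4' h4e j hj.1.2 k hk.1.2 hj.2 hk.2
        have h1' : (((T.erase J).filter fun j => d j = 1).card : ℚ) ≤ 1 := by exact_mod_cast h1
        calc (2 : ℚ) ≤ 3 * (3 / 4) - (1 / 4) * ((T.erase J).filter fun j => d j = 1).card := by
              linarith
          _ = ∑ j ∈ T.erase J, ((3 / 4 : ℚ) - (1 / 4) * if d j = 1 then 1 else 0) := by
              rw [sum_sub_distrib, sum_const, nsmul_eq_mul, hc, h4e, ← mul_sum, ← sum_filter,
                sum_const, nsmul_eq_mul, mul_one]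
              norm_num
          _ ≤ _ := by
              apply sum_le_sum
              intro j hj
              have hj1 := hd j (mem_erase.1 hj).2
              by_cases h : d j = 1
              · rw [h]; norm_num
              · have := half_pow_le' (d := d j) (by omega)
                simp only [h, if_false]
                linarith
    linarith

variable {V : Type*} [Fintype V] [DecidableEq V] {p : ℕ} {c : V → V → ZMod p}

theorem Bad.weight_gt [Fact p.Prime] (h : Bad c) (x : V) :
    3 - 6 / ((p : ℚ) + 1) < ∑ j ∈ C c x, (1 - ((1 : ℚ) / 2) ^ deg c x j) := by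
  apply weight_bound (C c x) (deg c x) p (fun j hj => deg_pos hj) (sum_deg h.card x) (h.stepC x)
  intro hC j hj k hk hj1 hk1
  obtain ⟨b, hb, rfl⟩ := exists_of_mem_C hj
  obtain ⟨b', hb', rfl⟩ := exists_of_mem_C hk
  have := h.lemma3 hC (lone_of_deg_le_one hb hj1.le) (lone_of_deg_le_one hb' hk1.le)
  rw [this]

theorem Bad.total [Fact p.Prime] (h : Bad c) :
    ∑ x : V, ∑ j ∈ C c x, (1 - ((1 : ℚ) / 2) ^ deg c x j) ≤ 3 * p - 3 := by
  have hp2 : 2 ≤ p := (Fact.out : p.Prime).two_le
  -- the bound for each set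
  have h1 : ∀ Q ∈ (univ : Finset V).powerset,
      ∑ b ∈ Qᶜ, ((Q.image (c b)).card : ℚ) ≤ ((p : ℚ) - 2) + ∑ b ∈ Qᶜ, (1 : ℚ) := by
    intro Q _
    rcases Q.eq_empty_or_nonempty with rfl | hQ
    · have h2 : ∑ b ∈ (∅ : Finset V)ᶜ, ((image (c b) ∅).card : ℚ) = 0 := by simp
      have hp2' : (2 : ℚ) ≤ p := by exact_mod_cast hp2
      rw [h2]
      have : (0 : ℚ) ≤ ∑ b ∈ (∅ : Finset V)ᶜ, (1 : ℚ) := sum_nonneg fun _ _ => by norm_num
      linarith
    · have h2 := star h.nz hQ
      have h3 := card_B_pos (c := c) hQ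
      have h4 : ∑ b ∈ Qᶜ, (Q.image (c b)).card = F c Q + ∑ b ∈ Qᶜ, 1 := by
        unfold F
        rw [← sum_add_distrib]
        apply sum_congr rfl
        intro b _
        have : 1 ≤ (S c Q b).card := (hQ.image _).card_pos
        unfold S at this ⊢
        omega
      have h5 : ∑ b ∈ Qᶜ, (Q.image (c b)).card + 2 ≤ p + ∑ b ∈ Qᶜ, 1 := by omega
      have h6 : ∑ b ∈ Qᶜ, ((Q.image (c b)).card : ℚ) + 2 ≤ p + ∑ b ∈ Qᶜ, (1 : ℚ) := by
        exact_mod_cast h5
      linarith
  have h2 := sum_le_sum h1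
  rw [sum_add_distrib, sum_const, card_powerset, card_univ, h.card] at h2
  have hcomm : ∀ f : Finset V → V → ℚ, ∑ Q ∈ (univ : Finset V).powerset, ∑ b ∈ Qᶜ, f Q b =
      ∑ b : V, ∑ Q ∈ (univ.erase b).powerset, f Q b := by
    intro f
    apply sum_comm'
    intro Q b
    simp only [mem_powerset, mem_compl, subset_univ, true_and, mem_univ, and_true]
    constructor
    · intro hb q hq
      exact mem_erase.2 ⟨fun e => hb (e ▸ hq), mem_univ _⟩
    · intro hQ hb
      exact absurd rfl (mem_erase.1 (hQ hb)).1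
  rw [hcomm, hcomm] at h2
  have hcard : ∀ b : V, (univ.erase b).card = p := by
    intro b
    rw [card_erase_of_mem (mem_univ _), card_univ, h.card, Nat.add_sub_cancel]
  have h3 : ∀ b : V, ∑ Q ∈ (univ.erase b).powerset, ((Q.image (c b)).card : ℚ) =
      2 ^ p * ∑ j ∈ C c b, (1 - ((1 : ℚ) / 2) ^ deg c b j) := by
    intro b
    rw [sum_image_card, hcard, mul_sum]
    apply sum_congr rfl
    intro j _
    have h4 : deg c b j + ((univ.erase b).filter fun a => c b a ≠ j).card = p := by
      refine Eq.trans ?_ (hcard b)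
      exact card_filter_add_card_filter_not _
    have h5 : (2 : ℚ) ^ p = 2 ^ deg c b j * 2 ^ ((univ.erase b).filter fun a => c b a ≠ j).card := by
      rw [← pow_add, h4]
    have h6 : (2 : ℚ) ^ deg c b j * (1 / 2) ^ deg c b j = 1 := by
      rw [← mul_pow]; norm_num
    rw [mul_sub, mul_one]
    congr 1
    rw [h5, mul_comm, ← mul_assoc, mul_comm ((1 / 2 : ℚ) ^ deg c b j), h6, one_mul]
  rw [sum_congr rfl fun b _ => h3 b, ← mul_sum] at h2
  simp only [sum_const, card_powerset, hcard, card_univ, h.card, nsmul_eq_mul, mul_one] at h2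
  push_cast at h2
  have hpos : (0 : ℚ) < 2 ^ p := by positivity
  have h4 : (2 : ℚ) ^ p * ∑ x : V, ∑ j ∈ C c x, (1 - ((1 : ℚ) / 2) ^ deg c x j) ≤
      2 ^ p * (3 * p - 3) := by
    rw [pow_succ] at h2
    linarith
  exact le_of_mul_le_mul_left h4 hpos

/-- There is no bad colouring. -/
theorem not_bad [Fact p.Prime] : ¬ Bad c := by
  intro h
  have h1 := h.total
  have hne : Nonempty V := Fintype.card_pos_iff.1 (by rw [h.card]; omega)
  have h2 : ∑ x : V, (3 - 6 / ((p : ℚ) + 1)) <
      ∑ x : V, ∑ j ∈ C c x, (1 - ((1 : ℚ) / 2) ^ deg c x j) :=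
    sum_lt_sum_of_nonempty univ_nonempty fun x _ => h.weight_gt x
  rw [sum_const, card_univ, h.card, nsmul_eq_mul] at h2
  push_cast at h2
  have h3 : ((p : ℚ) + 1) * (3 - 6 / ((p : ℚ) + 1)) = 3 * p - 3 := by
    have : ((p : ℚ) + 1) ≠ 0 := by positivity
    field_simp
    ring
  linarith

end Pool.Agent.Lib.MP_12e153_co
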