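import Mathlib

/-!
Colourings of a complete graph by elements of `ZMod p` without a zero-sum spanning tree of depth
at most two: first counting inequality, from the Cauchy-Davenport theorem.
-/

set_option autoImplicit false
set_option linter.unusedSectionVars false

namespace Pool.Agent.Lib.MP_12e153_co

open Finset
open scoped Pointwise

variable {V : Type*} [Fintype V] [DecidableEq V] {p : ℕ}

/-- No spanning tree made of a star on `Q` with centre `r` and of one edge from each other vertex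
to `Q` has colour sum zero. -/
def NZ (c : V → V → ZMod p) : Prop :=
  ∀ Q : Finset V, ∀ r ∈ Q, ∀ g : V → V, (∀ b ∈ Qᶜ, g b ∈ Q) →
    ∑ q ∈ Q.erase r, c r q + ∑ b ∈ Qᶜ, c b (g b) ≠ 0

/-- The colours from `b` to `Q`. -/
def S (c : V → V → ZMod p) (Q : Finset V) (b : V) : Finset (ZMod p) := Q.image (c b)

/-- The star sums of `Q`. -/
def B (c : V → V → ZMod p) (Q : Finset V) : Finset (ZMod p) :=
  Q.image fun r => ∑ q ∈ Q.erase r, c r q

/-- The sum of the excesses of the sets of colours to `Q`. -/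
def F (c : V → V → ZMod p) (Q : Finset V) : ℕ := ∑ b ∈ Qᶜ, ((S c Q b).card - 1)

theorem sumset_card [Fact p.Prime] {ι : Type*} [DecidableEq ι] (T : Finset ι)
    (A : ι → Finset (ZMod p)) (hA : ∀ t ∈ T, (A t).Nonempty) (B₀ : Finset (ZMod p))
    (hB : B₀.Nonempty) :
    ∃ X : Finset (ZMod p), X.Nonempty ∧ min p (B₀.card + ∑ t ∈ T, ((A t).card - 1)) ≤ X.card ∧
      ∀ x ∈ X, ∃ b ∈ B₀, ∃ g : ι → ZMod p, (∀ t ∈ T, g t ∈ A t) ∧ b + ∑ t ∈ T, g t = x := by
  induction T using Finset.induction_on with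
  | empty =>
    refine ⟨B₀, hB, by simp, fun x hx => ⟨x, hx, fun _ => 0, by simp, by simp⟩⟩
  | insert t₀ T ht₀ ih =>
    obtain ⟨X, hX, hcard, hrep⟩ := ih (fun t ht => hA t (mem_insert_of_mem ht))
    have hA0 := hA t₀ (mem_insert_self _ _)
    refine ⟨X + A t₀, hX.add hA0, ?_, ?_⟩
    · have h1 := ZMod.cauchy_davenport (Fact.out : p.Prime) hX hA0
      rw [sum_insert ht₀]
      have h2 := hA0.card_pos
      omega
    · intro x hx
      obtain ⟨y, hy, a, ha, rfl⟩ := mem_add.1 hx
      obtain ⟨b, hb, g, hg, rfl⟩ := hrep y hy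
      refine ⟨b, hb, Function.update g t₀ a, ?_, ?_⟩
      · intro t ht
        by_cases h : t = t₀
        · subst h; simpa using ha
        · rw [Function.update_of_ne h]
          exact hg t ((mem_insert.1 ht).resolve_left h)
      · rw [sum_insert ht₀, Function.update_self, sum_congr rfl (g := g)]
        · ring
        · intro t ht
          rw [Function.update_of_ne]
          rintro rfl
          exact ht₀ ht

variable {c : V → V → ZMod p}

/-- The basic inequality. -/
theorem star [Fact p.Prime] (h : NZ c) {Q : Finset V} (hQ : Q.Nonempty) :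
    (B c Q).card + F c Q + 1 ≤ p := by
  by_contra hcon
  obtain ⟨X, -, hcard, hrep⟩ := sumset_card (p := p) Qᶜ (S c Q) (fun b _ => hQ.image _)
    (B c Q) (hQ.image _)
  have hX : X = univ := by
    apply eq_univ_of_card
    have h1 : X.card ≤ Fintype.card (ZMod p) := card_le_univ X
    rw [ZMod.card] at h1 ⊢
    unfold F at hcon
    omega
  obtain ⟨b, hb, g, hg, h0⟩ := hrep 0 (hX ▸ mem_univ _)
  obtain ⟨r, hr, rfl⟩ := mem_image.1 hb
  have : ∀ t : V, ∃ q : V, t ∈ Qᶜ → q ∈ Q ∧ c t q = g t := by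
    intro t
    by_cases ht : t ∈ Qᶜ
    · obtain ⟨q, hq, h⟩ := mem_image.1 (hg t ht)
      exact ⟨q, fun _ => ⟨hq, h⟩⟩
    · exact ⟨t, fun h => absurd h ht⟩
  choose g' hg' using this
  refine h Q r hr g' (fun b hb => (hg' b hb).1) ?_
  rw [sum_congr rfl fun b hb => (hg' b hb).2]
  exact h0

theorem two_le_card_S {Q : Finset V} {b q q' : V} (hq : q ∈ Q) (hq' : q' ∈ Q)
    (hne : c b q ≠ c b q') : 2 ≤ (S c Q b).card := by
  have : 1 < (S c Q b).card :=
    one_lt_card.2 ⟨c b q, mem_image_of_mem _ hq, c b q', mem_image_of_mem _ hq', hne⟩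
  omega

/-- The form in which the basic inequality is used for small sets `Q`. -/
theorem small [Fact p.Prime] (hN : Fintype.card V = p + 1) (h : NZ c) {Q : Finset V}
    (hQ : Q.Nonempty) (E : Finset V) (hE : ∀ b, b ∉ Q → b ∉ E → 2 ≤ (S c Q b).card) :
    (B c Q).card + 2 ≤ Q.card + E.card := by
  have h1 := star h hQ
  have h2 : (Qᶜ \ E).card ≤ F c Q := by
    unfold F
    calc (Qᶜ \ E).card = ∑ b ∈ Qᶜ \ E, 1 := by simp
      _ ≤ ∑ b ∈ Qᶜ \ E, ((S c Q b).card - 1) := by
        apply sum_le_sum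
        intro b hb
        have := hE b (by simpa using (mem_sdiff.1 hb).1) (mem_sdiff.1 hb).2
        omega
      _ ≤ ∑ b ∈ Qᶜ, ((S c Q b).card - 1) :=
        sum_le_sum_of_subset sdiff_subset
  have h3 : Qᶜ.card ≤ (Qᶜ \ E).card + E.card := by
    have := card_le_card_sdiff_add_card (s := Qᶜ) (t := E)
    exact this
  have h4 : Q.card + Qᶜ.card = p + 1 := by rw [← hN]; exact card_add_card_compl Q
  omega

/-- For a symmetric colouring with zero diagonal the star sum at `r` is the full sum over `Q`. -/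
theorem star_sum (hd : ∀ v, c v v = 0) (Q : Finset V) (r : V) :
    ∑ q ∈ Q.erase r, c r q = ∑ q ∈ Q, c r q := by
  by_cases hr : r ∈ Q
  · rw [← add_sum_erase Q _ hr, hd, zero_add]
  · rw [erase_eq_of_notMem hr]

theorem mem_B (hd : ∀ v, c v v = 0) {Q : Finset V} {r : V} (hr : r ∈ Q) :
    ∑ q ∈ Q, c r q ∈ B c Q := by
  rw [← star_sum hd]
  exact mem_image_of_mem (fun r => ∑ q ∈ Q.erase r, c r q) hr

theorem two_le_card_B (hd : ∀ v, c v v = 0) {Q : Finset V} {r s : V} (hr : r ∈ Q) (hs : s ∈ Q)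
    (h : ∑ q ∈ Q, c r q ≠ ∑ q ∈ Q, c s q) : 2 ≤ (B c Q).card := by
  have : 1 < (B c Q).card := one_lt_card.2 ⟨_, mem_B hd hr, _, mem_B hd hs, h⟩
  omega

theorem three_le_card_B (hd : ∀ v, c v v = 0) {Q : Finset V} {r s t : V} (hr : r ∈ Q) (hs : s ∈ Q)
    (ht : t ∈ Q) (h1 : ∑ q ∈ Q, c r q ≠ ∑ q ∈ Q, c s q) (h2 : ∑ q ∈ Q, c r q ≠ ∑ q ∈ Q, c t q)
    (h3 : ∑ q ∈ Q, c s q ≠ ∑ q ∈ Q, c t q) : 3 ≤ (B c Q).card := by
  have : 2 < (B c Q).card :=
    two_lt_card.2 ⟨_, mem_B hd hr, _, mem_B hd hs, _, mem_B hd ht, h1, h2, h3⟩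
  omega

/-- A triangle with two edges of distinct colours has at least two star sums. -/
theorem tri_two (hs : ∀ a b, c a b = c b a) (hd : ∀ v, c v v = 0) {x a b : V} (hxa : x ≠ a)
    (hxb : x ≠ b) (hne : c x a ≠ c x b) : 2 ≤ (B c {x, a, b}).card := by
  have hab : a ≠ b := fun h => hne (by rw [h])
  apply two_le_card_B hd (r := a) (s := b) (by simp) (by simp)
  rw [sum_insert (by simp [hxa, hxb]), sum_insert (by simp [hab]), sum_singleton,
    sum_insert (by simp [hxa, hxb]), sum_insert (by simp [hab]), sum_singleton, hd, hd, hs a x,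
    hs b x, hs b a]
  intro h
  apply hne
  simpa using h

/-- A triangle with three distinct colours has three star sums. -/
theorem tri_three (hs : ∀ a b, c a b = c b a) (hd : ∀ v, c v v = 0) {x a b : V} (hxa : x ≠ a)
    (hxb : x ≠ b) (hne : c x a ≠ c x b) (h1 : c a b ≠ c x a) (h2 : c a b ≠ c x b) :
    3 ≤ (B c {x, a, b}).card := by
  have hab : a ≠ b := fun h => hne (by rw [h])
  apply three_le_card_B hd (r := x) (s := a) (t := b) (by simp) (by simp) (by simp)
  all_goals
    rw [sum_insert (by simp [hxa, hxb]), sum_insert (by simp [hab]), sum_singleton,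
      sum_insert (by simp [hxa, hxb]), sum_insert (by simp [hab]), sum_singleton]
    simp only [hd, hs a x, hs b x, hs b a]
    intro h
  · exact h2 (by linear_combination -h)
  · exact h1 (by linear_combination -h)
  · exact hne (by linear_combination h)

/-- Far partners. -/
theorem far (hN : Fintype.card V = p + 1) (h : NZ c) (v : V)
    (i : ZMod p) : ∃ w, w ≠ v ∧ c v w ≠ i ∧ ∀ z, z ≠ v → z ≠ w → c v z = i → c w z ≠ i := by
  by_contra hcon
  push Not at hcon
  let N : Finset V := (univ.erase v).filter fun z => c v z = i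
  have hvN : v ∉ N := by simp [N]
  have key : ∀ b : V, ∃ z : V, b ∈ (insert v N)ᶜ → z ∈ insert v N ∧ c b z = i := by
    intro b
    by_cases hb : b ∈ (insert v N)ᶜ
    · have hb' : b ≠ v ∧ c v b ≠ i := by
        rw [mem_compl, mem_insert, not_or] at hb
        refine ⟨hb.1, fun h => hb.2 ?_⟩
        simp [N, hb.1, h]
      obtain ⟨z, hz1, hz2, hz3, hz4⟩ := hcon b hb'.1 hb'.2
      exact ⟨z, fun _ => ⟨mem_insert_of_mem (by simp [N, hz1, hz3]), hz4⟩⟩
    · exact ⟨v, fun h => absurd h hb⟩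
  choose g hg using key
  refine h (insert v N) v (mem_insert_self _ _) g (fun b hb => (hg b hb).1) ?_
  rw [erase_insert hvN, sum_congr rfl (g := fun _ => i) (by
    intro q hq; exact (mem_filter.1 hq).2), sum_congr rfl fun b hb => (hg b hb).2,
    sum_const, sum_const, ← add_smul]
  have h4 : (insert v N).card + (insert v N)ᶜ.card = p + 1 := by
    rw [← hN]; exact card_add_card_compl _
  rw [card_insert_of_notMem hvN] at h4
  have h5 : N.card + (insert v N)ᶜ.card = p := by omega
  rw [h5, nsmul_eq_mul, CharP.cast_eq_zero, zero_mul]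

end Pool.Agent.Lib.MP_12e153_co
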