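import Mathlib

/-!
Spanning trees of depth at most two as simple graphs.
-/

set_option autoImplicit false
set_option linter.unusedSectionVars false

namespace Pool.Agent.Lib.MP_12e153_co

open Finset

/-- The parent of `u` in the tree made of a star on `Q` with centre `r` and the edges `b (g b)`. -/
def par {V : Type*} [DecidableEq V] (r : V) (Q : Finset V) (g : V → V) (u : V) : V :=
  if u ∈ Q then r else g u

/-- The tree made of a star on `Q` with centre `r` and the edges `b (g b)`, for `b ∉ Q`. -/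
def treeOf {V : Type*} [DecidableEq V] (r : V) (Q : Finset V) (g : V → V) : SimpleGraph V where
  Adj u v := u ≠ v ∧ ((u ≠ r ∧ par r Q g u = v) ∨ (v ≠ r ∧ par r Q g v = u))
  symm := ⟨fun _ _ h => ⟨h.1.symm, h.2.symm⟩⟩
  loopless := ⟨fun _ h => h.1 rfl⟩

section

variable {V : Type*} [Fintype V] [DecidableEq V] {r : V} {Q : Finset V} {g : V → V}

theorem par_ne (hg : ∀ b ∈ Qᶜ, g b ∈ Q) {u : V} (hu : u ≠ r) : par r Q g u ≠ u := by
  unfold par
  split_ifs with h
  · exact hu.symm
  · intro e
    apply h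
    have := hg u (mem_compl.2 h)
    rwa [e] at this

theorem treeOf_adj (hg : ∀ b ∈ Qᶜ, g b ∈ Q) {u : V} (hu : u ≠ r) :
    (treeOf r Q g).Adj u (par r Q g u) :=
  ⟨(par_ne hg hu).symm, Or.inl ⟨hu, rfl⟩⟩

theorem edist_le_two (hr : r ∈ Q) (hg : ∀ b ∈ Qᶜ, g b ∈ Q) (u : V) :
    (treeOf r Q g).edist r u ≤ 2 := by
  have h1 : ∀ q ∈ Q, (treeOf r Q g).edist r q ≤ 1 := by
    intro q hq
    by_cases hqr : q = r
    · rw [hqr, SimpleGraph.edist_self]; exact zero_le
    · have := treeOf_adj (r := r) (g := g) hg hqr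
      have e : par r Q g q = r := by simp [par, hq]
      rw [e] at this
      exact (SimpleGraph.edist_le (this.symm.toWalk)).trans (by simp)
  by_cases hu : u ∈ Q
  · exact (h1 u hu).trans (by norm_num)
  · have hur : u ≠ r := fun e => hu (e ▸ hr)
    have := treeOf_adj (r := r) (g := g) hg hur
    have e : par r Q g u = g u := by simp [par, hu]
    rw [e] at this
    calc (treeOf r Q g).edist r u ≤ (treeOf r Q g).edist r (g u) + (treeOf r Q g).edist (g u) u :=
          SimpleGraph.edist_triangle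
      _ ≤ 1 + 1 := by
          apply add_le_add (h1 _ (hg u (mem_compl.2 hu)))
          exact (SimpleGraph.edist_le (this.symm.toWalk)).trans (by simp)
      _ = 2 := by norm_num

theorem treeOf_connected (hr : r ∈ Q) (hg : ∀ b ∈ Qᶜ, g b ∈ Q) : (treeOf r Q g).Connected := by
  have : Nonempty V := ⟨r⟩
  refine ⟨fun u v => ?_⟩
  have key : ∀ u, (treeOf r Q g).Reachable r u := by
    intro u
    apply SimpleGraph.reachable_of_edist_ne_top
    intro e
    have := edist_le_two (g := g) hr hg u
    rw [e] at this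
    exact absurd this (by decide)
  exact (key u).symm.trans (key v)

theorem treeOf_isTree (hr : r ∈ Q) (hg : ∀ b ∈ Qᶜ, g b ∈ Q) : (treeOf r Q g).IsTree := by
  rw [SimpleGraph.isTree_iff_connected_and_card]
  refine ⟨treeOf_connected hr hg, ?_⟩
  apply le_antisymm _ (treeOf_connected hr hg).card_vert_le_card_edgeSet_add_one
  have hsub : (treeOf r Q g).edgeSet ⊆
      (((univ.erase r).image fun u => s(u, par r Q g u) : Finset (Sym2 V)) : Set (Sym2 V)) := by
    intro e he
    induction e with
    | _ a b =>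
      rw [SimpleGraph.mem_edgeSet] at he
      rw [mem_coe, mem_image]
      rcases he.2 with h | h
      · exact ⟨a, by simp [h.1], by rw [h.2]⟩
      · exact ⟨b, by simp [h.1], by rw [h.2, Sym2.eq_swap]⟩
  have h1 : Nat.card (treeOf r Q g).edgeSet ≤ (univ.erase r : Finset V).card := by
    calc Nat.card (treeOf r Q g).edgeSet ≤ Nat.card
          ((((univ.erase r).image fun u => s(u, par r Q g u) : Finset (Sym2 V)) :
            Set (Sym2 V))) := Nat.card_mono (Finset.finite_toSet _) hsub
      _ = ((univ.erase r).image fun u => s(u, par r Q g u) : Finset (Sym2 V)).card := by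
          rw [Nat.card_coe_set_eq, Set.ncard_coe_finset]
      _ ≤ _ := card_image_le
  rw [card_erase_of_mem (mem_univ _), card_univ] at h1
  have h2 : 0 < Fintype.card V := Fintype.card_pos_iff.2 ⟨r⟩
  rw [Nat.card_eq_fintype_card (α := V)]
  omega

theorem treeOf_diam (hr : r ∈ Q) (hg : ∀ b ∈ Qᶜ, g b ∈ Q) : (treeOf r Q g).diam ≤ 4 := by
  have h1 : (treeOf r Q g).ediam ≤ 4 := by
    calc (treeOf r Q g).ediam ≤ 2 * (treeOf r Q g).eccent r :=
          SimpleGraph.ediam_le_two_mul_eccent r
      _ ≤ 2 * 2 := by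
          gcongr
          rw [SimpleGraph.eccent_le_iff]
          exact edist_le_two hr hg
      _ = 4 := by norm_num
  unfold SimpleGraph.diam
  exact ENat.toNat_le_of_le_natCast h1

end

section

open scoped Classical in
theorem treeOf_sum {m : ℕ} {A : Type*} [AddCommMonoid A] (c : Fin (m + 1) → Fin (m + 1) → A)
    (hc : ∀ a b, c a b = c b a) {r : Fin (m + 1)} {Q : Finset (Fin (m + 1))}
    {g : Fin (m + 1) → Fin (m + 1)} (hr : r ∈ Q) (hg : ∀ b ∈ Qᶜ, g b ∈ Q) :
    ∑ u : Fin (m + 1), ∑ v : Fin (m + 1), (if (treeOf r Q g).Adj u v ∧ u < v then c u v else 0) =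
      ∑ q ∈ Q.erase r, c r q + ∑ b ∈ Qᶜ, c b (g b) := by
  -- the two orientations of an edge are exclusive
  have hexcl : ∀ u v : Fin (m + 1), ¬ ((u ≠ r ∧ par r Q g u = v) ∧ (v ≠ r ∧ par r Q g v = u)) := by
    rintro u v ⟨⟨h1, h2⟩, h3, h4⟩
    unfold par at h2 h4
    by_cases hu : u ∈ Q
    · rw [if_pos hu] at h2
      exact h3 h2.symm
    · by_cases hv : v ∈ Q
      · rw [if_pos hv] at h4
        exact h1 h4.symm
      · rw [if_neg hu] at h2
        exact hv (h2 ▸ hg u (mem_compl.2 hu))
  have h1 : ∀ u v : Fin (m + 1), (if (treeOf r Q g).Adj u v ∧ u < v then c u v else 0) =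
      (if (u ≠ r ∧ par r Q g u = v) ∧ u < v then c u v else 0) +
      (if (v ≠ r ∧ par r Q g v = u) ∧ u < v then c u v else 0) := by
    intro u v
    have hadj : (treeOf r Q g).Adj u v ↔
        u ≠ v ∧ ((u ≠ r ∧ par r Q g u = v) ∨ (v ≠ r ∧ par r Q g v = u)) := Iff.rfl
    by_cases huv : u < v
    · by_cases ha : u ≠ r ∧ par r Q g u = v
      · have hb : ¬ (v ≠ r ∧ par r Q g v = u) := fun hb => hexcl u v ⟨ha, hb⟩
        rw [if_pos ⟨hadj.2 ⟨huv.ne, Or.inl ha⟩, huv⟩, if_pos ⟨ha, huv⟩, if_neg (fun h => hb h.1),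
          add_zero]
      · by_cases hb : v ≠ r ∧ par r Q g v = u
        · rw [if_pos ⟨hadj.2 ⟨huv.ne, Or.inr hb⟩, huv⟩, if_neg (fun h => ha h.1), if_pos ⟨hb, huv⟩,
            zero_add]
        · rw [if_neg, if_neg (fun h => ha h.1), if_neg (fun h => hb h.1), add_zero]
          rintro ⟨h, -⟩
          rcases (hadj.1 h).2 with h | h
          · exact ha h
          · exact hb h
    · rw [if_neg (fun h => huv h.2), if_neg (fun h => huv h.2), if_neg (fun h => huv h.2),
        add_zero]
  simp_rw [h1, sum_add_distrib]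
  have h2 : ∑ u : Fin (m + 1), ∑ v : Fin (m + 1), (if (u ≠ r ∧ par r Q g u = v) ∧ u < v then c u v else 0) =
      ∑ u ∈ univ.erase r, if u < par r Q g u then c u (par r Q g u) else 0 := by
    rw [← sum_subset (subset_univ (univ.erase r))]
    · apply sum_congr rfl
      intro u hu
      rw [sum_eq_single (par r Q g u)]
      · simp [(mem_erase.1 hu).1]
      · intro v _ hv
        rw [if_neg]
        rintro ⟨⟨-, h⟩, -⟩
        exact hv h.symm
      · intro h; exact absurd (mem_univ _) h
    · intro u _ hu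
      have hur : u = r := by simpa using hu
      apply sum_eq_zero
      intro v _
      rw [if_neg]
      rintro ⟨⟨h, -⟩, -⟩
      exact h hur
  have h3 : ∑ u : Fin (m + 1), ∑ v : Fin (m + 1), (if (v ≠ r ∧ par r Q g v = u) ∧ u < v then c u v else 0) =
      ∑ v ∈ univ.erase r, if par r Q g v < v then c v (par r Q g v) else 0 := by
    rw [sum_comm, ← sum_subset (subset_univ (univ.erase r))]
    · apply sum_congr rfl
      intro v hv
      rw [sum_eq_single (par r Q g v)]
      · rw [hc]; simp [(mem_erase.1 hv).1]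
      · intro u _ hu
        rw [if_neg]
        rintro ⟨⟨-, h⟩, -⟩
        exact hu h.symm
      · intro h; exact absurd (mem_univ _) h
    · intro v _ hv
      have hvr : v = r := by simpa using hv
      apply sum_eq_zero
      intro u _
      rw [if_neg]
      rintro ⟨⟨h, -⟩, -⟩
      exact h hvr
  rw [h2, h3, ← sum_add_distrib]
  have h4 : ∀ u ∈ univ.erase r, ((if u < par r Q g u then c u (par r Q g u) else 0) +
      if par r Q g u < u then c u (par r Q g u) else 0) = c u (par r Q g u) := by
    intro u hu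
    rcases lt_or_gt_of_ne (par_ne (g := g) hg (mem_erase.1 hu).1) with h | h
    · rw [if_neg (not_lt.2 h.le), if_pos h, zero_add]
    · rw [if_pos h, if_neg (not_lt.2 h.le), add_zero]
  rw [sum_congr rfl h4]
  have h5 : (univ.erase r : Finset (Fin (m + 1))) = Q.erase r ∪ Qᶜ := by
    ext u
    simp only [mem_erase, mem_univ, and_true, mem_union, mem_compl]
    constructor
    · intro hu
      by_cases hq : u ∈ Q
      · exact Or.inl ⟨hu, hq⟩
      · exact Or.inr hq
    · rintro (h | h)
      · exact h.1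
      · rintro rfl; exact h hr
  rw [h5, sum_union]
  · congr 1
    · apply sum_congr rfl
      intro q hq
      have : q ∈ Q := (mem_erase.1 hq).2
      rw [hc]
      simp [par, this]
    · apply sum_congr rfl
      intro b hb
      have : b ∉ Q := mem_compl.1 hb
      simp [par, this]
  · rw [disjoint_left]
    intro u hu hu'
    exact (mem_compl.1 hu') (mem_erase.1 hu).2

end

/-- The 2-colouring property: each colouring of the edges of the complete graph on `n` vertices
by two colours has a monochromatic tree with `m` edges and of diameter at most four. -/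
def TwoCol (m n : ℕ) : Prop :=
  ∀ c : Fin n → Fin n → Fin 2, (∀ a b, c a b = c b a) →
    ∃ T : SimpleGraph (Fin (m + 1)), T.IsTree ∧ T.diam ≤ 4 ∧
      ∃ f : Fin (m + 1) → Fin n, Function.Injective f ∧ ∃ col : Fin 2,
        ∀ u v : Fin (m + 1), T.Adj u v → c (f u) (f v) = col

open scoped Classical in
/-- The zero-sum property: each colouring of the edges of the complete graph on `n` vertices
by elements of `ZMod m` has a zero-sum tree with `m` edges and of diameter at most four. -/
def ZeroSum (m n : ℕ) : Prop :=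
  ∀ c : Fin n → Fin n → ZMod m, (∀ a b, c a b = c b a) →
    ∃ T : SimpleGraph (Fin (m + 1)), T.IsTree ∧ T.diam ≤ 4 ∧
      ∃ f : Fin (m + 1) → Fin n, Function.Injective f ∧
        (∑ u : Fin (m + 1), ∑ v : Fin (m + 1),
          (if T.Adj u v ∧ u < v then c (f u) (f v) else (0 : ZMod m))) = 0

/-- In each colouring of the edges of a complete graph by two colours there is a monochromatic
spanning tree of diameter at most four. -/
theorem mono_tree {V : Type*} [Fintype V] [DecidableEq V] [Nonempty V] (c : V → V → Fin 2)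
    (hc : ∀ a b, c a b = c b a) :
    ∃ T : SimpleGraph V, T.IsTree ∧ T.diam ≤ 4 ∧ ∃ col : Fin 2, ∀ u v, T.Adj u v →
      c u v = col := by
  obtain ⟨r⟩ := ‹Nonempty V›
  have fin2 : ∀ x : Fin 2, x ≠ 0 → x = 1 := by decide
  by_cases h : ∀ w, w ≠ r → c r w ≠ 0 → ∃ z, z ≠ r ∧ z ≠ w ∧ c r z = 0 ∧ c w z = 0
  · -- a tree in colour `0`
    let Q : Finset V := insert r ((univ.erase r).filter fun z => c r z = 0)
    have hQ : ∀ z, z ∈ Q ↔ z = r ∨ c r z = 0 := by
      intro z
      simp only [Q, mem_insert, mem_filter, mem_erase, mem_univ, and_true]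
      by_cases hz : z = r <;> simp [hz]
    have key : ∀ b : V, ∃ z : V, b ∈ Qᶜ → z ∈ Q ∧ c b z = 0 := by
      intro b
      by_cases hb : b ∈ Qᶜ
      · have hb' := mem_compl.1 hb
        rw [hQ, not_or] at hb'
        obtain ⟨z, h1, -, h3, h4⟩ := h b hb'.1 hb'.2
        exact ⟨z, fun _ => ⟨(hQ z).2 (Or.inr h3), h4⟩⟩
      · exact ⟨r, fun h => absurd h hb⟩
    choose g hg using key
    have hr : r ∈ Q := mem_insert_self _ _
    refine ⟨treeOf r Q g, treeOf_isTree hr fun b hb => (hg b hb).1,
      treeOf_diam hr fun b hb => (hg b hb).1, 0, ?_⟩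
    have key2 : ∀ u, u ≠ r → c u (par r Q g u) = 0 := by
      intro u hu
      unfold par
      split_ifs with h
      · rw [hc]
        exact ((hQ u).1 h).resolve_left hu
      · exact (hg u (mem_compl.2 h)).2
    rintro u v ⟨-, h | h⟩
    · rw [← h.2]; exact key2 u h.1
    · rw [← h.2, hc]; exact key2 v h.1
  · -- a double star in colour `1`
    push Not at h
    obtain ⟨w, hw1, hw2, hw3⟩ := h
    have key : ∀ b : V, ∃ z : V, b ∈ ({r, w} : Finset V)ᶜ → z ∈ ({r, w} : Finset V) ∧
        c b z = 1 := by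
      intro b
      by_cases hb : b ∈ ({r, w} : Finset V)ᶜ
      · have hb' : b ≠ r ∧ b ≠ w := by simpa using hb
        by_cases h0 : c r b = 0
        · exact ⟨w, fun _ => ⟨by simp, by rw [hc]; exact fin2 _ (hw3 b hb'.1 hb'.2 h0)⟩⟩
        · exact ⟨r, fun _ => ⟨by simp, by rw [hc]; exact fin2 _ h0⟩⟩
      · exact ⟨r, fun h => absurd h hb⟩
    choose g hg using key
    have hr : r ∈ ({r, w} : Finset V) := by simp
    refine ⟨treeOf r {r, w} g, treeOf_isTree hr fun b hb => (hg b hb).1,
      treeOf_diam hr fun b hb => (hg b hb).1, 1, ?_⟩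
    have key2 : ∀ u, u ≠ r → c u (par r {r, w} g u) = 1 := by
      intro u hu
      unfold par
      split_ifs with h
      · have : u = w := by simpa [hu] using h
        rw [this, hc]
        exact fin2 _ hw2
      · exact (hg u (mem_compl.2 h)).2
    rintro u v ⟨-, h | h⟩
    · rw [← h.2]; exact key2 u h.1
    · rw [← h.2, hc]; exact key2 v h.1

theorem twoCol_iff (m n : ℕ) : TwoCol m n ↔ m + 1 ≤ n := by
  constructor
  · intro h
    obtain ⟨-, -, -, f, hf, -⟩ := h (fun _ _ => 0) (fun _ _ => rfl)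
    simpa using Fintype.card_le_of_injective f hf
  · intro h c hc
    obtain ⟨T, h1, h2, col, h3⟩ := mono_tree
      (fun u v : Fin (m + 1) => c (Fin.castLE h u) (Fin.castLE h v)) (fun _ _ => hc _ _)
    exact ⟨T, h1, h2, Fin.castLE h, Fin.castLE_injective h, col, h3⟩

theorem le_of_zeroSum (m n : ℕ) (h : ZeroSum m n) : m + 1 ≤ n := by
  obtain ⟨-, -, -, f, hf, -⟩ := h (fun _ _ => 0) (fun _ _ => rfl)
  simpa using Fintype.card_le_of_injective f hf

/-- Reduction of the zero-sum property to trees of depth at most two. -/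
theorem zeroSum_of (m n : ℕ) (hn : m + 1 ≤ n)
    (H : ∀ c : Fin (m + 1) → Fin (m + 1) → ZMod m, (∀ a b, c a b = c b a) → (∀ v, c v v = 0) →
      ∃ Q : Finset (Fin (m + 1)), ∃ r ∈ Q, ∃ g : Fin (m + 1) → Fin (m + 1),
        (∀ b ∈ Qᶜ, g b ∈ Q) ∧ ∑ q ∈ Q.erase r, c r q + ∑ b ∈ Qᶜ, c b (g b) = 0) :
    ZeroSum m n := by
  intro c hc
  obtain ⟨Q, r, hr, g, hg, h0⟩ := H
    (fun u v => if u = v then 0 else c (Fin.castLE hn u) (Fin.castLE hn v)) (by
      intro a b
      by_cases h : a = b
      · subst h; rfl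
      · simp only [h, Ne.symm h, if_false]; exact hc _ _) (by simp)
  refine ⟨treeOf r Q g, treeOf_isTree hr hg, treeOf_diam hr hg, Fin.castLE hn,
    Fin.castLE_injective hn, ?_⟩
  rw [treeOf_sum (fun u v => c (Fin.castLE hn u) (Fin.castLE hn v)) (fun _ _ => hc _ _) hr hg]
  rw [← h0]
  congr 1
  · apply sum_congr rfl
    intro q hq
    rw [if_neg (mem_erase.1 hq).1.symm]
  · apply sum_congr rfl
    intro b hb
    rw [if_neg]
    rintro e
    exact (mem_compl.1 hb) (e ▸ hg b hb)

end Pool.Agent.Lib.MP_12e153_co
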