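import Pool.Agent.Lib.MP_12e153_co.Basic

/-!
Structure of a colouring without a zero-sum spanning tree of depth at most two.
-/

set_option autoImplicit false
set_option linter.unusedSectionVars false

namespace Pool.Agent.Lib.MP_12e153_co

open Finset

variable {V : Type*} [Fintype V] [DecidableEq V] {p : ℕ}

/-- A symmetric colouring with zero diagonal of the complete graph on `p + 1` vertices without a
zero-sum spanning tree of depth at most two. -/
structure Bad (c : V → V → ZMod p) : Prop where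
  card : Fintype.card V = p + 1
  symm : ∀ a b, c a b = c b a
  diag : ∀ v, c v v = 0
  nz : NZ c

/-- The set of colours at `v`. -/
def C (c : V → V → ZMod p) (v : V) : Finset (ZMod p) := (univ.erase v).image (c v)

/-- `w` is a far partner of `v` for the colour `i`. -/
def Far (c : V → V → ZMod p) (v : V) (i : ZMod p) (w : V) : Prop :=
  w ≠ v ∧ c v w ≠ i ∧ ∀ z, z ≠ v → z ≠ w → c v z = i → c w z ≠ i

/-- The colour of the edge `x b` occurs only once at `x`. -/
def Lone (c : V → V → ZMod p) (x b : V) : Prop :=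
  b ≠ x ∧ ∀ u, u ≠ x → c x u = c x b → u = b

variable {c : V → V → ZMod p}

theorem mem_C {v u : V} (h : u ≠ v) : c v u ∈ C c v :=
  mem_image_of_mem _ (mem_erase.2 ⟨h, mem_univ _⟩)

theorem exists_of_mem_C {v : V} {i : ZMod p} (h : i ∈ C c v) : ∃ u, u ≠ v ∧ c v u = i := by
  obtain ⟨u, hu, rfl⟩ := mem_image.1 h
  exact ⟨u, (mem_erase.1 hu).1, rfl⟩

theorem Bad.far (h : Bad c) (v : V) (i : ZMod p) : ∃ w, Far c v i w :=
  MP_12e153_co.far h.card h.nz v i

theorem Far.two_le (h : Bad c) {v w b : V} {i : ZMod p} (hf : Far c v i w) {Q : Finset V}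
    (hv : v ∈ Q) (hw : w ∈ Q) (hb : b ∉ Q) (hc : c v b = i) : 2 ≤ (S c Q b).card := by
  apply two_le_card_S hv hw
  rw [h.symm b v, h.symm b w, hc]
  exact (hf.2.2 b (fun e => hb (e ▸ hv)) (fun e => hb (e ▸ hw)) hc).symm

theorem Bad.small0 [Fact p.Prime] (h : Bad c) {Q : Finset V}
    (hQ : Q.Nonempty) (hE : ∀ b, b ∉ Q → 2 ≤ (S c Q b).card) :
    (B c Q).card + 2 ≤ Q.card := by
  have := small h.card h.nz hQ ∅ (fun b hb _ => hE b hb)
  simpa using this

theorem Bad.small1 [Fact p.Prime] (h : Bad c) {Q : Finset V}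
    (hQ : Q.Nonempty) (e : V) (hE : ∀ b, b ∉ Q → b ≠ e → 2 ≤ (S c Q b).card) :
    (B c Q).card + 1 ≤ Q.card := by
  have := small h.card h.nz hQ {e} (fun b hb he => hE b hb (by simpa using he))
  rw [card_singleton] at this
  omega

theorem card_B_pos {Q : Finset V} (hQ : Q.Nonempty) : 1 ≤ (B c Q).card :=
  (hQ.image _).card_pos

/-- Each vertex sees at least three colours. -/
theorem Bad.stepA [Fact p.Prime] (h : Bad c) (v : V) : 3 ≤ (C c v).card := by
  by_contra hcon
  have hp : 2 ≤ p := (Fact.out : p.Prime).two_le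
  have hcard := h.card
  obtain ⟨u, hu⟩ : ∃ u, u ≠ v := by
    have : Nontrivial V := Fintype.one_lt_card_iff_nontrivial.1 (by omega)
    exact exists_ne v
  obtain ⟨w1, hw1⟩ := h.far v (c v u)
  obtain ⟨w2, hw2⟩ := h.far v (c v w1)
  have hcol : ∀ b, b ≠ v → c v b = c v u ∨ c v b = c v w1 := by
    intro b hb
    by_contra hcc
    push Not at hcc
    apply hcon
    have : 2 < (C c v).card := two_lt_card.2
      ⟨_, mem_C hu, _, mem_C hw1.1, _, mem_C hb, hw1.2.1.symm, hcc.1.symm, hcc.2.symm⟩
    omega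
  have h2 : c v w2 = c v u := (hcol w2 hw2.1).resolve_right hw2.2.1
  have h3 : 2 ≤ (B c {v, w1, w2}).card := by
    apply tri_two h.symm h.diag hw1.1.symm hw2.1.symm
    rw [h2]
    exact hw1.2.1
  have h4 := h.small0 (Q := {v, w1, w2}) (by simp) (by
    intro b hb
    have hbv : b ≠ v := fun e => hb (by simp [e])
    rcases hcol b hbv with hc | hc
    · exact hw1.two_le h (by simp) (by simp) hb hc
    · exact hw2.two_le h (by simp) (by simp) hb hc)
  have h5 : ({v, w1, w2} : Finset V).card ≤ 3 := card_le_three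
  omega

/-- At a vertex seeing exactly three colours each of them occurs at least twice. -/
theorem Bad.lemma1 [Fact p.Prime] (h : Bad c) {x : V} (hC : (C c x).card = 3) (b0 : V) :
    ¬ Lone c x b0 := by
  rintro ⟨hb0, hlone⟩
  have h1 : ((C c x).erase (c x b0)).card = 2 := by
    rw [card_erase_of_mem (mem_C hb0), hC]
  obtain ⟨i1, i2, hne, heq⟩ := card_eq_two.1 h1
  have hi1 : i1 ≠ c x b0 := by
    have : i1 ∈ (C c x).erase (c x b0) := by rw [heq]; simp
    exact (mem_erase.1 this).1
  have hi2 : i2 ≠ c x b0 := by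
    have : i2 ∈ (C c x).erase (c x b0) := by rw [heq]; simp
    exact (mem_erase.1 this).1
  have hcol : ∀ b, b ≠ x → b ≠ b0 → c x b = i1 ∨ c x b = i2 := by
    intro b hb hbb
    have : c x b ∈ (C c x).erase (c x b0) :=
      mem_erase.2 ⟨fun e => hbb (hlone b hb e), mem_C hb⟩
    rw [heq] at this
    simpa using this
  obtain ⟨z1, hz1⟩ := h.far x i1
  obtain ⟨z2, hz2⟩ := h.far x i2
  by_cases h12 : z1 = z2
  · subst h12
    have hz : z1 = b0 := by
      by_contra hz
      rcases hcol z1 hz1.1 hz with e | e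
      · exact hz1.2.1 e
      · exact hz2.2.1 e
    have h4 := h.small0 (Q := {x, z1}) (by simp) (by
      intro b hb
      have hbv : b ≠ x := fun e => hb (by simp [e])
      have hbz : b ≠ b0 := fun e => hb (by simp [e, hz])
      rcases hcol b hbv hbz with hc | hc
      · exact hz1.two_le h (by simp) (by simp) hb hc
      · exact hz2.two_le h (by simp) (by simp) hb hc)
    have h5 : ({x, z1} : Finset V).card ≤ 2 := card_le_two
    have h6 : 1 ≤ (B c {x, z1}).card := card_B_pos (by simp)
    omega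
  · by_cases hb : z1 = b0 ∨ z2 = b0
    · have h4 := h.small0 (Q := {x, z1, z2}) (by simp) (by
        intro b hb'
        have hbv : b ≠ x := fun e => hb' (by simp [e])
        have hbz : b ≠ b0 := by
          intro e
          apply hb'
          rcases hb with e' | e' <;> simp [e, e']
        rcases hcol b hbv hbz with hc | hc
        · exact hz1.two_le h (by simp) (by simp) hb' hc
        · exact hz2.two_le h (by simp) (by simp) hb' hc)
      have h5 : ({x, z1, z2} : Finset V).card ≤ 3 := card_le_three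
      have h6 : 2 ≤ (B c {x, z1, z2}).card := by
        apply tri_two h.symm h.diag hz1.1.symm hz2.1.symm
        rcases hb with e | e
        · rw [e]
          intro e'
          exact h12 (e.trans (hlone z2 hz2.1 e'.symm).symm)
        · rw [e]
          intro e'
          exact h12 ((hlone z1 hz1.1 e').trans e.symm)
      omega
    · push Not at hb
      have hc1 : c x z1 = i2 := (hcol z1 hz1.1 hb.1).resolve_left hz1.2.1
      have hc2 : c x z2 = i1 := (hcol z2 hz2.1 hb.2).resolve_right hz2.2.1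
      have h4 := h.small1 (Q := {x, z1, z2}) (by simp) b0 (by
        intro b hb' hbz
        have hbv : b ≠ x := fun e => hb' (by simp [e])
        rcases hcol b hbv hbz with hc | hc
        · exact hz1.two_le h (by simp) (by simp) hb' hc
        · exact hz2.two_le h (by simp) (by simp) hb' hc)
      have h5 : ({x, z1, z2} : Finset V).card ≤ 3 := card_le_three
      have h6 : 3 ≤ (B c {x, z1, z2}).card := by
        apply tri_three h.symm h.diag hz1.1.symm hz2.1.symm
        · rw [hc1, hc2]; exact hne.symm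
        · rw [hc1, h.symm]
          exact hz2.2.2 z1 hz1.1 h12 hc1
        · rw [hc2]
          exact hz1.2.2 z2 hz2.1 (Ne.symm h12) hc2
      omega

theorem Bad.lemma2_aux [Fact p.Prime] (h : Bad c) {x b2 b3 z : V} {i : ZMod p}
    (hb2 : b2 ≠ x) (hb3 : b3 ≠ x)
    (hcol : ∀ b, b ≠ x → b ≠ b2 → b ≠ b3 → b ≠ z → c x b = i) (hz : Far c x i z)
    (h23 : c x b2 ≠ c x b3) (h2z : c x z ≠ c x b2) (h3z : c x z ≠ c x b3) : False := by
  have key : ∀ b b' : V, b ≠ x → b' ≠ x → (∀ u, u ≠ x → u ≠ b → u ≠ b' → u ≠ z → c x u = i) →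
      c x z ≠ c x b' → b ≠ z → b ≠ b' → c b b' = c b x := by
    intro b b' hb hb' hcol hzb hbz hbb
    by_contra hne
    have h4 := h.small0 (Q := {x, z, b'}) (by simp) (by
      intro u hu
      have hux : u ≠ x := fun e => hu (by simp [e])
      have huz : u ≠ z := fun e => hu (by simp [e])
      have hub' : u ≠ b' := fun e => hu (by simp [e])
      by_cases hub : u = b
      · subst hub
        exact two_le_card_S (q := b') (q' := x) (by simp) (by simp) hne
      · exact hz.two_le h (by simp) (by simp) hu (hcol u hux hub hub' huz))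
    have h5 : ({x, z, b'} : Finset V).card ≤ 3 := card_le_three
    have h6 : 2 ≤ (B c {x, z, b'}).card := tri_two h.symm h.diag hz.1.symm hb'.symm hzb
    omega
  have e1 := key b2 b3 hb2 hb3 hcol h3z (fun e => h2z (by rw [e])) (fun e => h23 (by rw [e]))
  have e2 := key b3 b2 hb3 hb2 (fun u h1 h2 h3 h4 => hcol u h1 h3 h2 h4) h2z
    (fun e => h3z (by rw [e])) (fun e => h23 (by rw [e]))
  apply h23
  rw [h.symm x b2, h.symm x b3, ← e1, ← e2, h.symm]

/-- At a vertex seeing exactly four colours no three of them occur only once. -/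
theorem Bad.lemma2 [Fact p.Prime] (h : Bad c) {x b2 b3 b4 : V} (hC : (C c x).card = 4)
    (h2 : Lone c x b2) (h3 : Lone c x b3) (h4 : Lone c x b4) (h23 : b2 ≠ b3) (h24 : b2 ≠ b4)
    (h34 : b3 ≠ b4) : False := by
  have c23 : c x b2 ≠ c x b3 := fun e => h23 (h3.2 b2 h2.1 e)
  have c24 : c x b2 ≠ c x b4 := fun e => h24 (h4.2 b2 h2.1 e)
  have c34 : c x b3 ≠ c x b4 := fun e => h34 (h4.2 b3 h3.1 e)
  have hcard : ((((C c x).erase (c x b2)).erase (c x b3)).erase (c x b4)).card = 1 := by
    rw [card_erase_of_mem, card_erase_of_mem, card_erase_of_mem, hC]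
    · exact mem_C h2.1
    · exact mem_erase.2 ⟨c23.symm, mem_C h3.1⟩
    · exact mem_erase.2 ⟨c34.symm, mem_erase.2 ⟨c24.symm, mem_C h4.1⟩⟩
  obtain ⟨i, hi⟩ := card_eq_one.1 hcard
  have hcol : ∀ b, b ≠ x → b ≠ b2 → b ≠ b3 → b ≠ b4 → c x b = i := by
    intro b hb e2 e3 e4
    have : c x b ∈ (((C c x).erase (c x b2)).erase (c x b3)).erase (c x b4) :=
      mem_erase.2 ⟨fun e => e4 (h4.2 b hb e), mem_erase.2 ⟨fun e => e3 (h3.2 b hb e),
        mem_erase.2 ⟨fun e => e2 (h2.2 b hb e), mem_C hb⟩⟩⟩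
    rw [hi] at this
    simpa using this
  obtain ⟨z, hz⟩ := h.far x i
  have hz' : z = b2 ∨ z = b3 ∨ z = b4 := by
    by_contra hcon
    push Not at hcon
    exact hz.2.1 (hcol z hz.1 hcon.1 hcon.2.1 hcon.2.2)
  rcases hz' with rfl | rfl | rfl
  · exact h.lemma2_aux h3.1 h4.1 (fun b e1 e2 e3 e4 => hcol b e1 e4 e2 e3) hz c34 c23 c24
  · exact h.lemma2_aux h2.1 h4.1 (fun b e1 e2 e3 e4 => hcol b e1 e2 e4 e3) hz c24 c23.symm c34
  · exact h.lemma2_aux h2.1 h3.1 (fun b e1 e2 e3 e4 => hcol b e1 e2 e3 e4) hz c23 c24.symm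
      c34.symm

end Pool.Agent.Lib.MP_12e153_co
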